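import Mathlib

namespace Pool.Agent.Results.MP_1d57ab_an.Counter

open Filter Topology

/-- `X` is an infinite-dimensional Polish topological vector space over `K`. -/
def IsSpace (K X : Type) [RCLike K] [AddCommGroup X] [Module K X] [TopologicalSpace X] : Prop :=
  IsTopologicalAddGroup X ∧ ContinuousSMul K X ∧ PolishSpace X ∧ ¬ FiniteDimensional K X

/-- Furstenberg families. -/
def IsFurst (F : Set (Set ℕ)) : Prop :=
  (∀ A ∈ F, A.Nonempty) ∧ ∀ A ∈ F, ∀ B, A ⊆ B → B ∈ F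

/-- The visit set `N_T(x, V)`. -/
def Visits {X : Type} (T : X → X) (x : X) (V : Set X) : Set ℕ := {n | T^[n] x ∈ V}

/-- `T` is `F`-hypercyclic. -/
def FHyp {X : Type} [TopologicalSpace X] (F : Set (Set ℕ)) (T : X → X) : Prop :=
  ∃ x, ∀ V : Set X, IsOpen V → V.Nonempty → Visits T x V ∈ F

/-- `T` is hereditarily `F`-hypercyclic. -/
def Hered {X : Type} [TopologicalSpace X] (F : Set (Set ℕ)) (T : X → X) : Prop :=
  ∀ (I : Type) [Countable I] (V : I → Set X) (A : I → Set ℕ),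
    (∀ i, IsOpen (V i) ∧ (V i).Nonempty) → (∀ i, A i ∈ F) →
      ∃ x, ∀ i, Visits T x (V i) ∩ A i ∈ F

/-- The family of infinite sets. -/
def Inf : Set (Set ℕ) := {A | A.Infinite}

/-- The Hilbert space `ℓ²`. -/
abbrev L2 (K : Type) [RCLike K] : Type := lp (fun _ : ℕ => K) 2

lemma baire {Z : Type} [TopologicalSpace Z] [BaireSpace Z] [SecondCountableTopology Z]
    [Nonempty Z] {f : Z → Z} (hf : Continuous f)
    (h : ∀ U V : Set Z, IsOpen U → U.Nonempty → IsOpen V → V.Nonempty → ∀ N : ℕ,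
      ∃ n, N ≤ n ∧ ∃ z ∈ U, f^[n] z ∈ V) : FHyp Inf f := by
  have := (TopologicalSpace.countable_countableBasis Z).to_subtype
  have hd : Dense (⋂ q : TopologicalSpace.countableBasis Z × ℕ,
      ⋃ n : ℕ, ⋃ (_ : q.2 ≤ n), f^[n] ⁻¹' q.1) := by
    refine dense_iInter_of_isOpen ?_ ?_
    · intro q
      exact isOpen_iUnion fun n => isOpen_iUnion fun _ =>
        (TopologicalSpace.isOpen_of_mem_countableBasis q.1.2).preimage (hf.iterate n)
    · intro q
      refine dense_iff_inter_open.2 fun U hU hne => ?_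
      obtain ⟨n, hn, z, hz, hz'⟩ := h U q.1 hU hne
        (TopologicalSpace.isOpen_of_mem_countableBasis q.1.2)
        (TopologicalSpace.nonempty_of_mem_countableBasis q.1.2) q.2
      exact ⟨z, hz, Set.mem_iUnion.2 ⟨n, Set.mem_iUnion.2 ⟨hn, hz'⟩⟩⟩
  obtain ⟨z, hz⟩ := hd.nonempty
  refine ⟨z, fun V hV ⟨v, hv⟩ => ?_⟩
  obtain ⟨B, hB, hvB, hBV⟩ :=
    (TopologicalSpace.isBasis_countableBasis Z).exists_subset_of_mem_open hv hV
  refine Set.infinite_of_forall_exists_gt fun N => ?_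
  obtain ⟨n, hn⟩ := Set.mem_iUnion.1 (Set.mem_iInter.1 hz (⟨B, hB⟩, N + 1))
  obtain ⟨hn, hn'⟩ := Set.mem_iUnion.1 hn
  exact ⟨n, hBV hn', hn⟩

lemma pairs {Y : Type} [TopologicalSpace Y] {S : Y → Y} (hS : Continuous S) (h : FHyp Inf S)
    {U V : Set Y} (hU : IsOpen U) (hU' : U.Nonempty) (hV : IsOpen V) (hV' : V.Nonempty)
    (D : ℕ) : ∃ d, D < d ∧ ∀ N, ∃ n, N ≤ n ∧ ∃ y ∈ U, S^[n] y ∈ V ∧ S^[n + d] y ∈ V := by
  obtain ⟨y, hy⟩ := h
  obtain ⟨a, ha⟩ := (hy U hU hU').nonempty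
  obtain ⟨b, hb⟩ := (hy V hV hV').nonempty
  obtain ⟨c, hc, hbc⟩ := (hy V hV hV').exists_gt (b + D)
  obtain ⟨d, rfl⟩ : ∃ d, c = d + b := ⟨c - b, by omega⟩
  refine ⟨d, by omega, fun N => ?_⟩
  have hW : (V ∩ S^[d] ⁻¹' V).Nonempty :=
    ⟨S^[b] y, hb, by simpa [Visits, Function.iterate_add_apply] using hc⟩
  obtain ⟨m, hm, hm'⟩ := (hy _ (hV.inter (hV.preimage (hS.iterate d))) hW).exists_gt (N + a)
  obtain ⟨n, rfl⟩ : ∃ n, m = n + a := ⟨m - a, by omega⟩
  refine ⟨n, by omega, S^[a] y, ha, ?_, ?_⟩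
  · rw [← Function.iterate_add_apply]
    exact hm.1
  · rw [add_comm n d, Function.iterate_add_apply, ← Function.iterate_add_apply S n a]
    exact hm.2

/-- Distance to the last square. -/
def ex (m : ℕ) : ℕ := m - Nat.sqrt m * Nat.sqrt m

lemma ex_succ (m : ℕ) : ex (m + 1) ≤ ex m + 1 := by
  have h1 : Nat.sqrt m ≤ Nat.sqrt (m + 1) := Nat.sqrt_le_sqrt (Nat.le_succ m)
  have h2 := Nat.mul_le_mul h1 h1
  have h3 := Nat.sqrt_le m
  unfold ex
  omega

lemma comb (J L d : ℕ) (hd : J + L < d) : ∃ N, ∀ n, N ≤ n →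
    (∀ j < J, L ≤ ex (j + n)) ∨ (∀ j < J, L ≤ ex (j + (n + d))) := by
  refine ⟨(L + d + J) * (L + d + J), fun n hn => ?_⟩
  by_contra hc
  push Not at hc
  obtain ⟨⟨i, hi, h1⟩, ⟨j, hj, h2⟩⟩ := hc
  unfold ex at h1 h2
  have a1 := Nat.sqrt_le (i + n)
  have a2 := Nat.lt_succ_sqrt (i + n)
  have b1 := Nat.sqrt_le (j + (n + d))
  set k := Nat.sqrt (i + n)
  set l := Nat.sqrt (j + (n + d))
  have h3 : k * k < l * l := by omega
  have h4 : k + 1 ≤ l := Nat.mul_self_lt_mul_self_iff.1 h3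
  have h5 := Nat.mul_le_mul h4 h4
  have h6 : (k + 1) * (k + 1) = k * k + 2 * k + 1 := by ring
  have h7 : k + 1 ≤ L + d + J := by omega
  have h8 := Nat.mul_le_mul h7 h7
  simp only [Nat.succ_eq_add_one] at a2
  omega

variable (K : Type) [RCLike K]

noncomputable def W (m : ℕ) : K := 2 ^ ex m

lemma W_ne (m : ℕ) : W K m ≠ 0 := pow_ne_zero _ two_ne_zero

lemma norm_W (m : ℕ) : ‖W K m‖ = 2 ^ ex m := by simp [W]

lemma w_le (m : ℕ) : ‖W K (m + 1) / W K m‖ ≤ 2 := by
  rw [norm_div, norm_W, norm_W, div_le_iff₀ (by positivity), ← pow_succ']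
  exact pow_le_pow_right₀ one_le_two (ex_succ m)

lemma two_pos' : 0 < (2 : ENNReal).toReal := by norm_num

lemma term_le (x : L2 K) (n : ℕ) : ‖W K (n + 1) / W K n * x (n + 1)‖ ^ (2 : ENNReal).toReal ≤
    2 ^ (2 : ENNReal).toReal * ‖x (n + 1)‖ ^ (2 : ENNReal).toReal := by
  rw [← Real.mul_rpow zero_le_two (norm_nonneg _), norm_mul]
  exact Real.rpow_le_rpow (by positivity)
    (mul_le_mul_of_nonneg_right (w_le K n) (norm_nonneg _)) two_pos'.le

lemma summ (x : L2 K) :
    Summable fun n => 2 ^ (2 : ENNReal).toReal * ‖x (n + 1)‖ ^ (2 : ENNReal).toReal :=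
  ((summable_nat_add_iff 1).2 ((lp.memℓp x).summable two_pos')).mul_left _

lemma summ' (x : L2 K) :
    Summable fun n => ‖W K (n + 1) / W K n * x (n + 1)‖ ^ (2 : ENNReal).toReal :=
  Summable.of_nonneg_of_le (fun _ => by positivity) (term_le K x) (summ K x)

noncomputable def Tl : L2 K →ₗ[K] L2 K where
  toFun x := ⟨fun n => W K (n + 1) / W K n * x (n + 1), memℓp_gen (summ' K x)⟩
  map_add' x y := lp.ext (funext fun n => by
    show W K (n + 1) / W K n * (x (n + 1) + y (n + 1)) =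
      W K (n + 1) / W K n * x (n + 1) + W K (n + 1) / W K n * y (n + 1)
    ring)
  map_smul' c x := lp.ext (funext fun n => by
    show W K (n + 1) / W K n * (c * x (n + 1)) = c * (W K (n + 1) / W K n * x (n + 1))
    ring)

lemma Tl_le (x : L2 K) : ‖Tl K x‖ ≤ 2 * ‖x‖ := by
  refine lp.norm_le_of_tsum_le two_pos' (by positivity) ?_
  refine ((summ' K x).tsum_le_tsum (term_le K x) (summ K x)).trans ?_
  rw [tsum_mul_left, Real.mul_rpow zero_le_two (norm_nonneg _), lp.norm_rpow_eq_tsum two_pos',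
    ((lp.memℓp x).summable two_pos').tsum_eq_zero_add]
  refine mul_le_mul_of_nonneg_left ?_ (by positivity)
  exact le_add_of_nonneg_left (by positivity)

noncomputable def T : L2 K →L[K] L2 K := (Tl K).mkContinuous 2 (Tl_le K)

lemma T_iter (n : ℕ) (x : L2 K) (j : ℕ) :
    ((T K)^[n] x) j = W K (j + n) / W K j * x (j + n) := by
  induction n generalizing j with
  | zero => simp [W_ne]
  | succ n ih =>
    rw [Function.iterate_succ_apply']
    show W K (j + 1) / W K j * ((T K)^[n] x) (j + 1) = _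
    rw [ih, show j + 1 + n = j + (n + 1) by ring]
    have := W_ne K j
    have := W_ne K (j + 1)
    field_simp

lemma dense0 : Dense {x : L2 K | ∃ J, ∀ j, J ≤ j → x j = 0} := fun x => by
  refine mem_closure_of_tendsto (lp.hasSum_single (by norm_num) x).tendsto_sum_nat
    (Eventually.of_forall fun n => ⟨n, fun j hj => ?_⟩)
  rw [lp.coeFn_sum, Finset.sum_apply]
  refine Finset.sum_eq_zero fun i hi => ?_
  exact lp.single_apply_ne _ _ _ (by have := Finset.mem_range.1 hi; omega)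

instance sep : TopologicalSpace.SeparableSpace (L2 K) := by
  have hd : Dense (Submodule.span K (Set.range fun i : ℕ => (lp.single 2 i (1 : K) : L2 K)) :
      Set (L2 K)) := fun x => by
    refine mem_closure_of_tendsto (lp.hasSum_single (by norm_num) x)
      (Eventually.of_forall fun s => Submodule.sum_mem _ fun i _ => ?_)
    have : (lp.single 2 i (x i) : L2 K) = x i • lp.single 2 i (1 : K) := by
      rw [← lp.single_smul]; simp
    rw [this]
    exact Submodule.smul_mem _ _ (Submodule.subset_span ⟨i, rfl⟩)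
  rw [← TopologicalSpace.isSeparable_univ_iff, ← hd.closure_eq]
  exact (Set.countable_range _).isSeparable.span.closure

lemma T_trans {U V : Set (L2 K)} (hU : IsOpen U) (hU' : U.Nonempty) (hV : IsOpen V)
    (hV' : V.Nonempty) : ∃ J L, ∀ n, J ≤ n → (∀ j < J, L ≤ ex (j + n)) →
      ∃ x ∈ U, (T K)^[n] x ∈ V := by
  obtain ⟨u, ⟨J1, hu1⟩, hu⟩ := (dense0 K).exists_mem_open hU hU'
  obtain ⟨v, ⟨J2, hv1⟩, hv⟩ := (dense0 K).exists_mem_open hV hV'
  obtain ⟨ε, hε, hball⟩ := Metric.isOpen_iff.1 hU u hu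
  set J := max J1 J2
  set C := ∑ j ∈ Finset.range J, ‖v j * W K j‖
  obtain ⟨L, hL⟩ := pow_unbounded_of_one_lt (C / ε) (one_lt_two (α := ℝ))
  refine ⟨J, L, fun n hn hex => ?_⟩
  set r : L2 K := ∑ j ∈ Finset.range J, lp.single 2 (j + n) (v j * W K j / W K (j + n))
  have hr : ‖r‖ < ε := by
    refine (norm_sum_le _ _).trans_lt ?_
    have : ∀ j ∈ Finset.range J,
        ‖(lp.single 2 (j + n) (v j * W K j / W K (j + n)) : L2 K)‖ ≤ ‖v j * W K j‖ / 2 ^ L := by
      intro j hj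
      rw [lp.norm_single (by norm_num), norm_div, norm_W]
      exact div_le_div_of_nonneg_left (norm_nonneg _) (by positivity)
        (pow_le_pow_right₀ one_le_two (hex j (Finset.mem_range.1 hj)))
    refine (Finset.sum_le_sum this).trans_lt ?_
    rw [← Finset.sum_div, div_lt_iff₀ (by positivity)]
    rw [div_lt_iff₀ hε] at hL
    linarith
  refine ⟨u + r, hball (by simpa using hr), ?_⟩
  have : (T K)^[n] (u + r) = v := by
    refine lp.ext (funext fun i => ?_)
    rw [T_iter, lp.coeFn_add, Pi.add_apply, hu1 _ (by omega), zero_add, lp.coeFn_sum,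
      Finset.sum_apply]
    by_cases hi : i < J
    · rw [Finset.sum_eq_single i]
      · rw [lp.single_apply_self]
        have := W_ne K i
        have := W_ne K (i + n)
        field_simp
      · intro j _ hj
        exact lp.single_apply_ne _ _ _ (by omega)
      · intro h
        exact absurd (Finset.mem_range.2 hi) h
    · rw [hv1 i (by omega), Finset.sum_eq_zero, mul_zero]
      intro j hj
      exact lp.single_apply_ne _ _ _ (by have := Finset.mem_range.1 hj; omega)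
  rwa [this]

lemma inf_dim : ¬ FiniteDimensional K (L2 K) := by
  intro h
  have hli : LinearIndependent K fun i : ℕ => (lp.single 2 i (1 : K) : L2 K) := by
    rw [linearIndependent_iff']
    intro s g hs i hi
    have := congrArg (fun x : L2 K => x i) hs
    simp only [lp.coeFn_sum, Finset.sum_apply, lp.coeFn_smul, Pi.smul_apply, lp.coeFn_zero,
      Pi.zero_apply] at this
    rw [Finset.sum_eq_single i] at this
    · simpa [lp.single_apply_self] using this
    · intro j _ hj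
      rw [lp.single_apply_ne _ _ _ hj.symm, smul_zero]
    · intro h
      exact absurd hi h
  exact Module.Finite.not_linearIndependent_of_infinite _ hli

lemma not_hered : ¬ Hered Inf (T K) := by
  intro h
  have hc : Continuous fun x : L2 K => x 0 := 
    (continuous_apply 0).comp lp.uniformContinuous_coe.continuous
  obtain ⟨x, hx⟩ := h Unit (fun _ => {x | 1 < ‖x 0‖}) (fun _ => Set.range fun k => k * k)
    (fun _ => ⟨isOpen_lt continuous_const hc.norm, lp.single 2 0 (2 : K), by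
      simp [lp.single_apply_self]⟩)
    (fun _ => Set.infinite_range_of_injective fun a b hab => Nat.mul_self_inj.1 hab)
  have ht := ((lp.memℓp x).summable two_pos').tendsto_atTop_zero
  obtain ⟨N, hN⟩ := eventually_atTop.1 (ht.eventually (gt_mem_nhds one_pos))
  obtain ⟨m, ⟨hm, k, rfl⟩, hNm⟩ := (hx ()).exists_gt N
  have h1 : 1 < ‖((T K)^[k * k] x) 0‖ := hm
  have h2 := hN _ hNm.le
  rw [T_iter, zero_add] at h1
  have e1 : W K (k * k) = 1 := by simp [W, ex, Nat.sqrt_eq]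
  have e2 : W K 0 = 1 := by simp [W, ex]
  rw [e1, e2, div_one, one_mul] at h1
  exact absurd (Real.one_lt_rpow h1 two_pos') (not_lt.2 h2.le)

theorem result (K : Type) [RCLike K] : IsFurst Inf ∧ IsSpace K (L2 K) ∧
    ∃ T : L2 K →L[K] L2 K, FHyp Inf T ∧
      (∀ (Y : Type) [AddCommGroup Y] [Module K Y] [TopologicalSpace Y] (S : Y →L[K] Y),
        IsSpace K Y → FHyp Inf S → FHyp Inf (S.prodMap T)) ∧ ¬ Hered Inf T := by
  refine ⟨⟨fun A hA => hA.nonempty, fun A hA B hAB => hA.mono hAB⟩,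
    ⟨inferInstance, inferInstance, inferInstance, inf_dim K⟩, T K, ?_, ?_, not_hered K⟩
  · refine baire (T K).continuous fun U V hU hU' hV hV' N => ?_
    obtain ⟨J, L, h⟩ := T_trans K hU hU' hV hV'
    obtain ⟨M, hM⟩ := comb J L (J + L + 1) (by omega)
    rcases hM (M + N + J) (by omega) with h1 | h1
    · exact ⟨_, by omega, h _ (by omega) h1⟩
    · exact ⟨_, by omega, h _ (by omega) h1⟩
  · intro Y _ _ _ S hY hS
    have := hY.2.2.1
    refine baire (S.prodMap (T K)).continuous fun U V hU ⟨u, hu⟩ hV ⟨v, hv⟩ N => ?_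
    obtain ⟨U1, U2, hU1, hU2, hu1, hu2, hU12⟩ := isOpen_prod_iff.1 hU u.1 u.2 hu
    obtain ⟨V1, V2, hV1, hV2, hv1, hv2, hV12⟩ := isOpen_prod_iff.1 hV v.1 v.2 hv
    obtain ⟨J, L, h⟩ := T_trans K hU2 ⟨_, hu2⟩ hV2 ⟨_, hv2⟩
    obtain ⟨d, hd, hp⟩ := pairs S.continuous hS hU1 ⟨_, hu1⟩ hV1 ⟨_, hv1⟩ (J + L)
    obtain ⟨M, hM⟩ := comb J L d hd
    obtain ⟨n, hn, y, hy, hy1, hy2⟩ := hp (M + N + J)
    have key : ∀ (m : ℕ) (x : L2 K), (S.prodMap (T K))^[m] (y, x) = (S^[m] y, (T K)^[m] x) := by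
      intro m x
      rw [ContinuousLinearMap.coe_prodMap', Prod.map_iterate]
      rfl
    rcases hM n (by omega) with h1 | h1
    · obtain ⟨x, hx, hx'⟩ := h _ (by omega) h1
      exact ⟨n, by omega, (y, x), hU12 ⟨hy, hx⟩, hV12 (by rw [key]; exact ⟨hy1, hx'⟩)⟩
    · obtain ⟨x, hx, hx'⟩ := h _ (by omega) h1
      exact ⟨n + d, by omega, (y, x), hU12 ⟨hy, hx⟩, hV12 (by rw [key]; exact ⟨hy2, hx'⟩)⟩

end Pool.Agent.Results.MP_1d57ab_an.Counter
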